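import Pool.Agent.Q67.HV.Defs

/-!
Project HV of helper67, job HV-T, part 1: translations are continuous in `L²`, the chain rule for
absolutely continuous curves.
-/

set_option autoImplicit false

open MeasureTheory Set Metric Filter Topology
open scoped InnerProductSpace ENNReal ContDiff NNReal
open H772R2.NS

namespace Pool.Agent.Q203.HV

open Pool.Agent.Q67.HV

/-- translations are continuous in `L²` -/
lemma cont_trans {F : Type} [NormedAddCommGroup F] (g : E3 → F)
    (hg : MemLp g 2 (volume : Measure E3)) (μ : Measure E3) (hμ : μ = volume) (P : E3 → Lp F 2 μ)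
    (hP : ∀ x, P x =ᵐ[μ] fun y => g (y - x)) : Continuous P := by
  subst hμ
  have : Fact ((2 : ℝ≥0∞) ≠ ⊤) := ⟨by norm_num⟩
  have h1 : ∀ x, P x = DomAddAct.mk (-x) +ᵥ hg.toLp g := by
    intro x
    rw [DomAddAct.mk_vadd_toLp]
    apply Lp.ext
    refine (hP x).trans ?_
    refine EventuallyEq.trans ?_ (MemLp.coeFn_toLp _).symm
    refine Eventually.of_forall fun y => ?_
    show g (y - x) = g (-x +ᵥ y)
    rw [vadd_eq_add, sub_eq_neg_add]
  rw [show P = fun x : E3 => DomAddAct.mk (-x) +ᵥ hg.toLp g from funext h1]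
  exact (DomAddAct.continuous_mk.comp continuous_neg).vadd continuous_const

/-- Lipschitz images of absolutely continuous functions -/
lemma ac_of_le {f g : ℝ → ℝ} {a b K : ℝ} (hK : 0 ≤ K) (hf : AbsolutelyContinuousOnInterval f a b)
    (h : ∀ x y, |g x - g y| ≤ K * |f x - f y|) : AbsolutelyContinuousOnInterval g a b := by
  rw [absolutelyContinuousOnInterval_iff] at hf ⊢
  intro ε hε
  obtain ⟨δ, hδ, H⟩ := hf (ε / (K + 1)) (by positivity)
  refine ⟨δ, hδ, fun E h1 h2 => ?_⟩
  have h3 := H E h1 h2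
  calc ∑ i ∈ Finset.range E.1, dist (g (E.2 i).1) (g (E.2 i).2)
      ≤ ∑ i ∈ Finset.range E.1, K * dist (f (E.2 i).1) (f (E.2 i).2) := by
        apply Finset.sum_le_sum
        intro i _
        rw [Real.dist_eq, Real.dist_eq]
        exact h _ _
    _ = K * ∑ i ∈ Finset.range E.1, dist (f (E.2 i).1) (f (E.2 i).2) := by rw [Finset.mul_sum]
    _ ≤ (K + 1) * ∑ i ∈ Finset.range E.1, dist (f (E.2 i).1) (f (E.2 i).2) := by
        apply mul_le_mul_of_nonneg_right (by linarith)
        exact Finset.sum_nonneg fun _ _ => dist_nonneg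
    _ < (K + 1) * (ε / (K + 1)) := by
        apply mul_lt_mul_of_pos_left h3 (by linarith)
    _ = ε := by field_simp

/-- the scalar function of `Phi` -/
noncomputable def ps (s : ℝ) : ℝ := 2 * √(1 + s) - Real.log (1 + s) / 2

lemma ps_deriv {s : ℝ} (hs : -1 < s) :
    HasDerivAt ps (1 / √(1 + s) - 1 / (2 * (1 + s))) s := by
  unfold ps
  have h0 : (1 + s) ≠ 0 := by linarith
  have h1 : HasDerivAt (fun s : ℝ => 1 + s) 1 s := (hasDerivAt_id s).const_add 1
  have h2 := (h1.sqrt h0).const_mul 2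
  have h3 := (h1.log h0).div_const 2
  refine (h2.sub h3).congr_deriv ?_
  have : √(1 + s) ≠ 0 := (Real.sqrt_pos.mpr (by linarith)).ne'
  field_simp

lemma ps_lip (x y : ℝ) (hx : 0 ≤ x) (hy : 0 ≤ y) : |ps x - ps y| ≤ 1 * |x - y| := by
  have h := Convex.norm_image_sub_le_of_norm_hasDerivWithin_le (𝕜 := ℝ) (f := ps)
    (f' := fun s => 1 / √(1 + s) - 1 / (2 * (1 + s))) (s := Ici (0:ℝ)) (C := 1) (x := y) (y := x)
    (fun s hs => (ps_deriv (by linarith [mem_Ici.mp hs])).hasDerivWithinAt) ?_ (convex_Ici 0)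
    (mem_Ici.mpr hy) (mem_Ici.mpr hx)
  · simpa [Real.norm_eq_abs] using h
  · intro s hs
    have hs0 : 0 ≤ s := mem_Ici.mp hs
    have h1 : 1 ≤ √(1 + s) := Real.one_le_sqrt.mpr (by linarith)
    have h2 : 1 / √(1 + s) ≤ 1 := by
      rw [div_le_one (by linarith)]; exact h1
    have h3 : 0 ≤ 1 / (2 * (1 + s)) := by positivity
    have h4 : 1 / (2 * (1 + s)) ≤ 1 := by
      rw [div_le_one (by positivity)]; linarith
    have h5 : 0 ≤ 1 / √(1 + s) := by positivity
    rw [Real.norm_eq_abs, abs_le]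
    constructor <;> linarith

lemma Phi_eq (a : E3) : Phi a = ps (∑ i, a i ^ 2) := by
  unfold Phi ps
  rw [norm_sq_E3]

/-- chain rule -/
lemma chain {s t : ℝ} (w : ℝ → E3) (n : Fin 3 → ℝ → ℝ) (hst : s ≤ t)
    (hn : ∀ i, IntervalIntegrable (n i) volume s t)
    (hw : ∀ τ ∈ Icc s t, ∀ i, w τ i = w s i + ∫ σ in s..τ, n i σ) :
    Phi (w t) - Phi (w s) = ∫ τ in s..t, ∑ i, gPhi (w τ) i * n i τ := by
  set q : Fin 3 → ℝ → ℝ := fun i τ => w s i + ∫ σ in s..τ, n i σ with hq
  have hqac : ∀ i, AbsolutelyContinuousOnInterval (q i) s t := by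
    intro i
    have h1 := (hn i).absolutelyContinuousOnInterval_intervalIntegral (c := s) (by simp)
    have h2 : AbsolutelyContinuousOnInterval (fun _ : ℝ => w s i) s t := by
      apply LipschitzOnWith.absolutelyContinuousOnInterval (K := 0)
      exact (LipschitzWith.const _).lipschitzOnWith
    exact h2.add h1
  set S : ℝ → ℝ := fun τ => ∑ i, q i τ ^ 2 with hS
  have hSac : AbsolutelyContinuousOnInterval S s t := by
    have h1 : S = ((q 0) * (q 0) + (q 1) * (q 1)) + (q 2) * (q 2) := by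
      funext τ
      simp only [hS, Fin.sum_univ_three, Pi.add_apply, Pi.mul_apply]
      ring
    rw [h1]
    exact (((hqac 0).mul (hqac 0)).add ((hqac 1).mul (hqac 1))).add ((hqac 2).mul (hqac 2))
  have hS0 : ∀ τ, 0 ≤ S τ := fun τ => Finset.sum_nonneg fun i _ => sq_nonneg _
  have hG : AbsolutelyContinuousOnInterval (fun τ => ps (S τ)) s t :=
    ac_of_le zero_le_one hSac fun x y => ps_lip _ _ (hS0 x) (hS0 y)
  have hwS : ∀ τ ∈ Icc s t, Phi (w τ) = ps (S τ) := by
    intro τ hτ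
    rw [Phi_eq]
    congr 1
    exact Finset.sum_congr rfl fun i _ => by rw [hw τ hτ i]
  rw [hwS t ⟨hst, le_rfl⟩, hwS s ⟨le_rfl, hst⟩, ← hG.integral_deriv_eq_sub]
  apply intervalIntegral.integral_congr_ae
  have hall : ∀ᵐ x : ℝ, ∀ i, x ∈ uIcc s t → HasDerivAt (q i) (n i x) x := by
    rw [ae_all_iff]
    intro i
    filter_upwards [(hn i).ae_hasDerivAt_integral] with x hx hxm
    exact (hx hxm s (by simp)).const_add (w s i)
  filter_upwards [hall] with x hx hxm
  have hxI : x ∈ uIcc s t := uIoc_subset_uIcc hxm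
  have hd : HasDerivAt S (∑ i, 2 * q i x * n i x) x := by
    have := HasDerivAt.fun_sum (u := Finset.univ) (A := fun i τ => q i τ ^ 2)
      (A' := fun i => 2 * q i x * n i x) (x := x) (fun i _ => by
        have h7 := (hx i hxI).fun_pow 2
        refine h7.congr_deriv ?_
        simp)
    exact this
  have hd2 := (ps_deriv (by linarith [hS0 x] : -1 < S x)).comp x hd
  have hd3 : deriv (fun τ => ps (S τ)) x = _ := hd2.deriv
  rw [hd3]
  have hxs : x ∈ Icc s t := by rwa [uIcc_of_le hst] at hxI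
  have hnorm : ‖w x‖ ^ 2 = S x := by
    rw [norm_sq_E3]
    exact Finset.sum_congr rfl fun i _ => by rw [hw x hxs i]
  have hSx : 0 < 1 + S x := by linarith [hS0 x]
  have hsq : √(1 + S x) ≠ 0 := (Real.sqrt_pos.mpr hSx).ne'
  rw [Finset.mul_sum]
  apply Finset.sum_congr rfl
  intro i _
  unfold gPhi
  rw [hnorm, hw x hxs i]
  show (1 / √(1 + S x) - 1 / (2 * (1 + S x))) * (2 * q i x * n i x) =
    (2 / √(1 + S x) - 1 / (1 + S x)) * q i x * n i x
  field_simp

end Pool.Agent.Q203.HV
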