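import Pool.Agent.Q203.HV.T1

/-!
Project HV of helper67, job HV-T, part 2: the representation of the mollified vorticity by inner
products, and the evolution of the integral of `Phi`.
-/

set_option autoImplicit false

open MeasureTheory Set Metric Filter Topology
open scoped InnerProductSpace ENNReal ContDiff NNReal
open H772R2.NS

namespace Pool.Agent.Q203.HV

open Pool.Agent.Q67.HV

/-- the test field is a translate -/
lemma tf_trans (δ : ℝ) (i : Fin 3) (x : E3) : tf δ i x = fun y => tf δ i 0 (y - x) := by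
  funext y
  unfold tf
  congr 1
  funext k
  apply Finset.sum_congr rfl
  intro l _
  congr 1
  have h1 : (fun y' : E3 => eta δ (x - y')) = fun y' => (fun z : E3 => eta δ (0 - z)) (y' - x) := by
    funext y'
    show eta δ (x - y') = eta δ (0 - (y' - x))
    congr 1
    abel
  rw [h1]
  exact congrArg (fun L : E3 →L[ℝ] ℝ => L (ev l))
    (fderiv_comp_sub (f := fun z : E3 => eta δ (0 - z)) (a := x) (x := y))

lemma jac_trans (δ : ℝ) (i : Fin 3) (x y : E3) : jac (tf δ i x) y = jac (tf δ i 0) (y - x) := by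
  unfold jac
  congr 1
  funext p
  rw [tf_trans δ i x, fderiv_comp_sub]

section

variable (hW : StmW) {δ : ℝ} (hδ : 0 < δ)

include hW hδ

lemma tf_mem (i : Fin 3) (x : E3) : MemLp (tf δ i x) 2 (volume.restrict (univ : Set E3)) := by
  rw [Measure.restrict_univ]
  exact (hW.1 δ i x hδ).memLp 2

lemma jac_mem (i : Fin 3) (x : E3) : MemLp (jac (tf δ i x)) 2 (volume.restrict (univ : Set E3)) := by
  rw [Measure.restrict_univ]
  exact (hW.1 δ i x hδ).jac_memLp 2

/-- the test field as an element of `L²` -/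
noncomputable def PP (i : Fin 3) (x : E3) : L2V univ := (tf_mem hW hδ i x).toLp _

/-- the gradient of the test field as an element of `L²` -/
noncomputable def JJ (i : Fin 3) (x : E3) : L2M univ := (jac_mem hW hδ i x).toLp _

lemma PP_cont (i : Fin 3) : Continuous (PP hW hδ i) := by
  apply cont_trans (tf δ i 0) ((hW.1 δ i 0 hδ).memLp 2) _ Measure.restrict_univ
  intro x
  have h := (tf_mem hW hδ i x).coeFn_toLp
  refine h.trans (Eventually.of_forall fun y => ?_)
  rw [tf_trans δ i x]

lemma JJ_cont (i : Fin 3) : Continuous (JJ hW hδ i) := by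
  apply cont_trans (jac (tf δ i 0)) ((hW.1 δ i 0 hδ).jac_memLp 2) _ Measure.restrict_univ
  intro x
  have h := (jac_mem hW hδ i x).coeFn_toLp
  exact h.trans (Eventually.of_forall fun y => jac_trans δ i x y)

lemma PJ_mem (i : Fin 3) (x : E3) : (PP hW hδ i x, JJ hW hδ i x) ∈ preW univ :=
  ⟨tf δ i x, hW.1 δ i x hδ, (tf_mem hW hδ i x).coeFn_toLp, (jac_mem hW hδ i x).coeFn_toLp⟩

lemma wu_eq (v : L2V univ) (i : Fin 3) (x : E3) : wu δ v x i = ⟪v, PP hW hδ i x⟫_ℝ := by
  have h1 : wu δ v x i = ∫ y in univ, ∑ k, v y k * tf δ i x y k := by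
    rw [setIntegral_univ]; rfl
  rw [h1, L2.inner_def]
  apply integral_congr_ae
  filter_upwards [(tf_mem hW hδ i x).coeFn_toLp] with y hy
  have h2 : (PP hW hδ i x : E3 → E3) y = tf δ i x y := hy
  rw [h2, inner_E3]

lemma NN_eq (ν : ℝ) (v : L2V univ) (z : L2M univ) (hv : (v, z) ∈ graphW univ) (i : Fin 3) (x : E3) :
    NN ν δ v z i x = ⟪tensL v, JJ hW hδ i x⟫_ℝ - ν * ⟪z, JJ hW hδ i x⟫_ℝ := by
  have h1 : NN ν δ v z i x = (∫ y in univ, ∑ k, ∑ j, v y k * v y j * jac (tf δ i x) y (k, j))
      - ν * ∫ y in univ, ∑ k, ∑ j, z y (k, j) * jac (tf δ i x) y (k, j) := by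
    rw [setIntegral_univ, setIntegral_univ]; rfl
  rw [h1, L2.inner_def, L2.inner_def]
  congr 1
  · apply integral_congr_ae
    filter_upwards [(jac_mem hW hδ i x).coeFn_toLp, tensL_coe MeasurableSet.univ hv] with y hy hy2
    have h2 : (JJ hW hδ i x : E3 → M3) y = jac (tf δ i x) y := hy
    rw [h2, hy2, inner_M3]
    rfl
  · congr 1
    apply integral_congr_ae
    filter_upwards [(jac_mem hW hδ i x).coeFn_toLp] with y hy
    have h2 : (JJ hW hδ i x : E3 → M3) y = jac (tf δ i x) y := hy
    rw [h2, inner_M3]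

end

/-- the mollified vorticity as a function of an element of `L²` -/
noncomputable def ww (hW : StmW) {δ : ℝ} (hδ : 0 < δ) (v : L2V univ) (x : E3) : E3 :=
  WithLp.toLp 2 fun i => ⟪v, PP hW hδ i x⟫_ℝ

lemma wu_ww (hW : StmW) {δ : ℝ} (hδ : 0 < δ) (v : L2V univ) (x : E3) :
    wu δ v x = ww hW hδ v x := by
  ext i
  exact wu_eq hW hδ v i x

lemma gPhi_le (a : E3) (i : Fin 3) : |gPhi a i| ≤ 2 := by
  unfold gPhi
  have h1 : 0 < 1 + ‖a‖ ^ 2 := by positivity
  have hs : 0 < √(1 + ‖a‖ ^ 2) := Real.sqrt_pos.mpr h1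
  have hs1 : 1 ≤ √(1 + ‖a‖ ^ 2) := Real.one_le_sqrt.mpr (by nlinarith [sq_nonneg ‖a‖])
  have hsq : √(1 + ‖a‖ ^ 2) ^ 2 = 1 + ‖a‖ ^ 2 := Real.sq_sqrt h1.le
  have hai : |a i| ≤ √(1 + ‖a‖ ^ 2) := by
    apply Real.abs_le_sqrt
    have : a i ^ 2 ≤ ‖a‖ ^ 2 := by
      rw [norm_sq_E3]
      exact Finset.single_le_sum (f := fun j => a j ^ 2) (fun j _ => sq_nonneg _) (Finset.mem_univ i)
    linarith
  rw [← hsq, Real.sqrt_sq hs.le]
  set r := √(1 + ‖a‖ ^ 2)
  have h2 : 0 ≤ 2 / r - 1 / r ^ 2 := by
    have : 2 / r - 1 / r ^ 2 = (2 * r - 1) / r ^ 2 := by field_simp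
    rw [this]
    apply div_nonneg _ (by positivity)
    linarith
  have h3 : 2 / r - 1 / r ^ 2 ≤ 2 / r := by
    have : 0 ≤ 1 / r ^ 2 := by positivity
    linarith
  rw [abs_mul, abs_of_nonneg h2]
  calc (2 / r - 1 / r ^ 2) * |a i| ≤ (2 / r) * r := by gcongr
    _ = 2 := by field_simp

lemma gPhi_cont (i : Fin 3) : Continuous (fun a : E3 => gPhi a i) := by
  unfold gPhi
  apply Continuous.mul
  · apply Continuous.sub
    · apply Continuous.div continuous_const
      · fun_prop
      · intro a
        exact (Real.sqrt_pos.mpr (by positivity)).ne'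
    · apply Continuous.div continuous_const
      · fun_prop
      · intro a
        positivity
  · fun_prop

lemma Phi_cont : Continuous Phi := by
  unfold Phi
  apply Continuous.sub
  · fun_prop
  · apply Continuous.div_const
    apply Continuous.log
    · fun_prop
    · intro a
      positivity

/-- **HV-T** -/
theorem t_T (hW : StmW) : StmT := by
  intro ν T u G hν hT h δ χ hδ hχ
  have hb1 : Integrable (fun τ => tensL (u τ)) (volume.restrict (Ioo 0 T)) := h.m_int isOpen_univ
  have hb2 : Integrable G (volume.restrict (Ioo 0 T)) := h.gradL2.integrable (by norm_num)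
  set b : ℝ → L2M univ := fun τ => tensL (u τ) - ν • G τ with hb
  have hbi : Integrable b (volume.restrict (Ioo 0 T)) := hb1.sub (hb2.smul ν)
  set n : Fin 3 → E3 → ℝ → ℝ := fun i x τ => ⟪b τ, JJ hW hδ i x⟫_ℝ with hn
  have hgr : ∀ᵐ τ ∂(volume.restrict (Ioo 0 T)), (u τ, G τ) ∈ graphW univ := by
    filter_upwards [h.grad] with τ hτ
    exact mem_graphW.mpr hτ
  have hNN : ∀ᵐ τ ∂(volume.restrict (Ioo 0 T)), ∀ i x, NN ν δ (u τ) (G τ) i x = n i x τ := by
    filter_upwards [hgr] with τ hτ i x
    rw [NN_eq hW hδ ν _ _ hτ, hn, hb]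
    simp only [inner_sub_left, inner_smul_left]
    simp
  have hni : ∀ i x, Integrable (n i x) (volume.restrict (Ioo 0 T)) := fun i x =>
    hbi.inner_const _
  -- the product function
  set F : ℝ × E3 → ℝ := fun q => χ q.2 * ∑ i, gPhi (ww hW hδ (u q.1) q.2) i * n i q.2 q.1 with hF
  obtain ⟨C, hC0, hC⟩ : ∃ C : ℝ, 0 ≤ C ∧ ∀ i, ∀ x ∈ tsupport χ, ‖JJ hW hδ i x‖ ≤ C := by
    have h1 : ∀ i, ∃ C : ℝ, ∀ x ∈ tsupport χ, ‖JJ hW hδ i x‖ ≤ C := fun i =>
      hχ.compact.isCompact.exists_bound_of_continuousOn (JJ_cont hW hδ i).continuousOn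
    choose c hc using h1
    refine ⟨|c 0| + |c 1| + |c 2|, by positivity, fun i x hx => (hc i x hx).trans ?_⟩
    fin_cases i
    · show c 0 ≤ _
      have := le_abs_self (c 0); have := abs_nonneg (c 1); have := abs_nonneg (c 2); linarith
    · show c 1 ≤ _
      have := le_abs_self (c 1); have := abs_nonneg (c 0); have := abs_nonneg (c 2); linarith
    · show c 2 ≤ _
      have := le_abs_self (c 2); have := abs_nonneg (c 1); have := abs_nonneg (c 0); linarith
  have hχc : Continuous χ := hχ.smooth.continuous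
  have hχi : Integrable χ := hχc.integrable_of_hasCompactSupport hχ.compact
  have hFm : AEStronglyMeasurable F ((volume.restrict (Ioo 0 T)).prod (volume : Measure E3)) := by
    have hu : AEStronglyMeasurable (fun q : ℝ × E3 => u q.1)
      ((volume.restrict (Ioo 0 T)).prod (volume : Measure E3)) := h.meas.comp_fst
    have hbm : AEStronglyMeasurable (fun q : ℝ × E3 => b q.1)
      ((volume.restrict (Ioo 0 T)).prod (volume : Measure E3)) := hbi.aestronglyMeasurable.comp_fst
    have hP : ∀ i, AEStronglyMeasurable (fun q : ℝ × E3 => PP hW hδ i q.2)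
      ((volume.restrict (Ioo 0 T)).prod (volume : Measure E3)) := fun i =>
        (((PP_cont hW hδ i).aestronglyMeasurable (μ := (volume : Measure E3)))).comp_snd
    have hJ : ∀ i, AEStronglyMeasurable (fun q : ℝ × E3 => JJ hW hδ i q.2)
      ((volume.restrict (Ioo 0 T)).prod (volume : Measure E3)) := fun i =>
        (((JJ_cont hW hδ i).aestronglyMeasurable (μ := (volume : Measure E3)))).comp_snd
    have hw : AEStronglyMeasurable (fun q : ℝ × E3 => ww hW hδ (u q.1) q.2)
      ((volume.restrict (Ioo 0 T)).prod (volume : Measure E3)) := by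
      have h1 : AEStronglyMeasurable (fun q : ℝ × E3 => fun i => ⟪u q.1, PP hW hδ i q.2⟫_ℝ)
        ((volume.restrict (Ioo 0 T)).prod (volume : Measure E3)) := by
        apply AEMeasurable.aestronglyMeasurable
        rw [aemeasurable_pi_iff]
        exact fun i => (hu.inner (hP i)).aemeasurable
      exact (PiLp.continuous_toLp 2 (fun _ : Fin 3 => ℝ)).comp_aestronglyMeasurable h1
    have hs : AEStronglyMeasurable (fun q : ℝ × E3 =>
        ∑ i, gPhi (ww hW hδ (u q.1) q.2) i * n i q.2 q.1)
        ((volume.restrict (Ioo 0 T)).prod (volume : Measure E3)) := by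
      apply Finset.aestronglyMeasurable_fun_sum
      intro i _
      exact ((gPhi_cont i).comp_aestronglyMeasurable hw).mul (hbm.inner (hJ i))
    exact ((hχc.comp continuous_snd).aestronglyMeasurable).mul hs
  have hbound : ∀ q : ℝ × E3, ‖F q‖ ≤ ‖b q.1‖ * (6 * C * χ q.2) := by
    intro q
    rw [hF]
    simp only
    rw [Real.norm_eq_abs, abs_mul, abs_of_nonneg (hχ.nonneg _)]
    by_cases hq : q.2 ∈ tsupport χ
    · have h1 : |∑ i, gPhi (ww hW hδ (u q.1) q.2) i * n i q.2 q.1| ≤ ∑ i : Fin 3, 2 * (‖b q.1‖ * C) := by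
        refine (Finset.abs_sum_le_sum_abs _ _).trans (Finset.sum_le_sum fun i _ => ?_)
        rw [abs_mul]
        apply mul_le_mul (gPhi_le _ _) _ (abs_nonneg _) (by norm_num)
        exact (abs_real_inner_le_norm _ _).trans
          (mul_le_mul_of_nonneg_left (hC i _ hq) (norm_nonneg _))
      rw [Finset.sum_const, Finset.card_univ, Fintype.card_fin, nsmul_eq_mul] at h1
      calc χ q.2 * |∑ i, gPhi (ww hW hδ (u q.1) q.2) i * n i q.2 q.1|
          ≤ χ q.2 * (((3:ℕ):ℝ) * (2 * (‖b q.1‖ * C))) := mul_le_mul_of_nonneg_left h1 (hχ.nonneg _)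
        _ = _ := by push_cast; ring
    · have : χ q.2 = 0 := image_eq_zero_of_notMem_tsupport hq
      rw [this]; simp
  have hFi : Integrable F ((volume.restrict (Ioo 0 T)).prod (volume : Measure E3)) := by
    have h1 : Integrable (fun q : ℝ × E3 => ‖b q.1‖ * (6 * C * χ q.2))
        ((volume.restrict (Ioo 0 T)).prod (volume : Measure E3)) :=
      hbi.norm.mul_prod (hχi.const_mul (6 * C))
    exact h1.mono' hFm (Eventually.of_forall hbound)
  have hwn : ∀ᵐ τ ∂(volume.restrict (Ioo 0 T)),
      (∫ x, χ x * ∑ i, gPhi (wu δ (u τ) x) i * NN ν δ (u τ) (G τ) i x) = ∫ x, F (τ, x) := by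
    filter_upwards [hNN] with τ hτ
    apply integral_congr_ae
    refine Eventually.of_forall fun x => ?_
    simp only [hF]
    rw [wu_ww hW hδ]
    congr 1
    exact Finset.sum_congr rfl fun i _ => by rw [hτ i x]
  refine ⟨?_, ?_⟩
  · have h1 : Integrable (fun τ => ∫ x, F (τ, x)) (volume.restrict (Ioo 0 T)) := hFi.integral_prod_left
    exact h1.congr (hwn.mono fun τ hτ => hτ.symm)
  · intro s t hs hst ht
    have hsub : Ioc s t ⊆ Ioc 0 T := Ioc_subset_Ioc hs ht
    have hsubm : volume.restrict (Ioc s t) ≤ volume.restrict (Ioo (0:ℝ) T) := by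
      rw [← restrict_Ioc_eq]
      exact Measure.restrict_mono hsub le_rfl
    have hchain : ∀ x, Phi (wu δ (u t) x) - Phi (wu δ (u s) x) =
        ∫ τ in s..t, ∑ i, gPhi (ww hW hδ (u τ) x) i * n i x τ := by
      intro x
      rw [wu_ww hW hδ, wu_ww hW hδ]
      apply chain (fun τ => ww hW hδ (u τ) x) (fun i => n i x) hst
      · intro i
        rw [intervalIntegrable_iff_integrableOn_Ioc_of_le hst]
        exact (hni i x).mono_measure hsubm
      · intro τ hτ i
        have h1 := h.weak_test isOpen_univ hT (PJ_mem hW hδ i x) hs hτ.1 (hτ.2.trans ht)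
        simp only at h1
        show ⟪u τ, PP hW hδ i x⟫_ℝ = ⟪u s, PP hW hδ i x⟫_ℝ + ∫ σ in s..τ, n i x σ
        rw [← sub_eq_iff_eq_add', h1]
        congr 1
        funext σ
        simp only [hn, hb, inner_sub_left, inner_smul_left, Pi.zero_apply, inner_zero_left]
        simp
    have hint : ∀ r, Integrable (fun x => χ x * Phi (wu δ (u r) x)) := by
      intro r
      have hc : Continuous (fun x => wu δ (u r) x) := by
        have : (fun x => wu δ (u r) x) = fun x => ww hW hδ (u r) x := by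
          funext x; exact wu_ww hW hδ _ _
        rw [this]
        unfold ww
        apply (PiLp.continuous_toLp 2 (fun _ : Fin 3 => ℝ)).comp
        apply continuous_pi
        intro i
        exact continuous_const.inner (PP_cont hW hδ i)
      apply Continuous.integrable_of_hasCompactSupport (hχc.mul (Phi_cont.comp hc))
      exact hχ.compact.mul_right
    rw [← integral_sub (hint t) (hint s)]
    have e1 : ∫ x, (χ x * Phi (wu δ (u t) x) - χ x * Phi (wu δ (u s) x)) =
        ∫ x, ∫ τ in Ioc s t, F (τ, x) := by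
      congr 1
      funext x
      rw [← mul_sub, hchain x, intervalIntegral.integral_of_le hst, ← integral_const_mul]
    rw [e1]
    have hFi2 : Integrable F ((volume.restrict (Ioc s t)).prod (volume : Measure E3)) :=
      hFi.mono_measure (Measure.prod_mono hsubm le_rfl)
    rw [← integral_integral_swap (f := fun τ x => F (τ, x)) hFi2,
      intervalIntegral.integral_of_le hst]
    apply le_of_eq
    apply integral_congr_ae
    filter_upwards [ae_mono hsubm hwn] with τ hτ
    exact hτ.symm

/-- the form asked for -/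
theorem t_T' : StmH0 → StmE0 → StmW → StmT := fun _ _ h => t_T h

end Pool.Agent.Q203.HV
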